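import Mathlib

/-!
# SYM-B4: the coefficients of a polynomial of bounded weight are linear in its values
-/

set_option autoImplicit false

namespace Pool.Agent.Helper74.SYM

open Polynomial

/-- B4: the coefficients of a polynomial of bounded weight are linear in its values. -/
theorem exists_inverse {k : Type*} [Field k] {N : ℕ} (w e : ℕ) (a b : Fin N → k)
    (h : ∀ T : k[X][X], T ≠ 0 →
      (∀ l, T.coeff l ≠ 0 → (T.coeff l).natDegree + e * l + 1 ≤ w) →
      ∃ i, (T.eval (C (b i))).eval (a i) ≠ 0) (he : e = 0 → w = 0) :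
    ∃ c : ℕ → ℕ → Fin N → k, ∀ i j i' j' : ℕ, i + e * j + 1 ≤ w → i' + e * j' + 1 ≤ w →
      ∑ l, c i j l * (a l ^ i' * b l ^ j') = if i = i' ∧ j = j' then 1 else 0 := by
  classical
  let s : Finset (ℕ × ℕ) := ((Finset.range w) ×ˢ (Finset.range w)).filter
    (fun p => p.1 + e * p.2 + 1 ≤ w)
  have hs : ∀ i j : ℕ, (i, j) ∈ s ↔ i + e * j + 1 ≤ w := by
    intro i j
    simp only [s, Finset.mem_filter, Finset.mem_product, Finset.mem_range]
    constructor
    · exact fun h => h.2
    · intro hij
      refine ⟨⟨by omega, ?_⟩, hij⟩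
      rcases Nat.eq_zero_or_pos e with h0 | h0
      · have := he h0
        omega
      · have : j ≤ e * j := Nat.le_mul_of_pos_left j h0
        omega
  let Φ : (s → k) →ₗ[k] (Fin N → k) :=
    { toFun := fun f l => ∑ p : s, f p * (a l ^ p.1.1 * b l ^ p.1.2)
      map_add' := by
        intro f g
        funext l
        simp only [Pi.add_apply, add_mul, Finset.sum_add_distrib]
      map_smul' := by
        intro r f
        funext l
        simp only [Pi.smul_apply, smul_eq_mul, RingHom.id_apply, Finset.mul_sum, mul_assoc] }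
  have hΦ : ∀ f l, Φ f l = ∑ p : s, f p * (a l ^ p.1.1 * b l ^ p.1.2) := fun f l => rfl
  have hinj : LinearMap.ker Φ = ⊥ := by
    rw [LinearMap.ker_eq_bot']
    intro f hf
    by_contra hne
    let T : k[X][X] := ∑ p : s, monomial p.1.2 (monomial p.1.1 (f p))
    have hcoef : ∀ i j : ℕ, (T.coeff j).coeff i = if hp : (i, j) ∈ s then f ⟨(i, j), hp⟩ else 0 := by
      intro i j
      simp only [T, Polynomial.finsetSum_coeff, Polynomial.coeff_monomial]
      split_ifs with hp
      · rw [Finset.sum_eq_single (⟨(i, j), hp⟩ : s)]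
        · simp
        · intro p _ hpne
          by_cases h2 : p.1.2 = j
          · rw [if_pos h2, Polynomial.coeff_monomial, if_neg]
            intro h1
            exact hpne (Subtype.ext (Prod.ext h1 h2))
          · rw [if_neg h2, Polynomial.coeff_zero]
        · intro hn
          exact absurd (Finset.mem_univ _) hn
      · refine Finset.sum_eq_zero fun p _ => ?_
        by_cases h2 : p.1.2 = j
        · rw [if_pos h2, Polynomial.coeff_monomial, if_neg]
          intro h1
          apply hp
          have : (i, j) = p.1 := Prod.ext h1.symm h2.symm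
          rw [this]
          exact p.2
        · rw [if_neg h2, Polynomial.coeff_zero]
    have hT : T ≠ 0 := by
      intro h0
      apply hne
      funext p
      have := hcoef p.1.1 p.1.2
      rw [h0, dif_pos (show (p.1.1, p.1.2) ∈ s from p.2)] at this
      simpa using this.symm
    obtain ⟨l, hl⟩ := h T hT (by
      intro l hl
      have h1 : (T.coeff l).coeff (T.coeff l).natDegree ≠ 0 := by
        rw [Polynomial.coeff_natDegree]
        exact Polynomial.leadingCoeff_ne_zero.mpr hl
      rw [hcoef] at h1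
      by_cases hp : ((T.coeff l).natDegree, l) ∈ s
      · exact (hs _ _).mp hp
      · rw [dif_neg hp] at h1
        exact absurd rfl h1)
    apply hl
    have h2 := congrFun hf l
    rw [hΦ] at h2
    simp only [T, Polynomial.eval_finsetSum, Polynomial.eval_monomial, Polynomial.eval_mul,
      Polynomial.eval_pow, Polynomial.eval_C]
    rw [← h2.trans (Pi.zero_apply l)]
    refine Finset.sum_congr rfl fun p _ => ?_
    ring
  obtain ⟨Ψ, hΨ⟩ := LinearMap.exists_leftInverse_of_injective Φ hinj
  refine ⟨fun i j l => if hp : (i, j) ∈ s then Ψ (Pi.single l 1) ⟨(i, j), hp⟩ else 0, ?_⟩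
  intro i j i' j' hij hij'
  have hp : (i, j) ∈ s := (hs i j).mpr hij
  have hp' : (i', j') ∈ s := (hs i' j').mpr hij'
  simp only [dif_pos hp]
  have h1 : Ψ (Φ (Pi.single ⟨(i', j'), hp'⟩ 1)) = Pi.single ⟨(i', j'), hp'⟩ 1 := by
    rw [← LinearMap.comp_apply, hΨ, LinearMap.id_apply]
  have h2 : Φ (Pi.single ⟨(i', j'), hp'⟩ 1) =
      ∑ l, (a l ^ i' * b l ^ j') • (Pi.single l (1 : k) : Fin N → k) := by
    funext l
    rw [hΦ, Finset.sum_eq_single (⟨(i', j'), hp'⟩ : s)]
    · rw [Finset.sum_apply, Finset.sum_eq_single l]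
      · simp
      · intro l' _ hl'
        simp [hl'.symm]
      · intro hn
        exact absurd (Finset.mem_univ _) hn
    · intro p _ hpne
      rw [Pi.single_eq_of_ne hpne, zero_mul]
    · intro hn
      exact absurd (Finset.mem_univ _) hn
  rw [h2, map_sum] at h1
  have h3 := congrFun h1 ⟨(i, j), hp⟩
  rw [Finset.sum_apply] at h3
  simp only [map_smul, Pi.smul_apply, smul_eq_mul] at h3
  have h4 : ∑ l, Ψ (Pi.single l 1) ⟨(i, j), hp⟩ * (a l ^ i' * b l ^ j') =
      (Pi.single ⟨(i', j'), hp'⟩ (1 : k) : s → k) ⟨(i, j), hp⟩ := by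
    rw [← h3]
    exact Finset.sum_congr rfl fun l _ => mul_comm _ _
  rw [h4, Pi.single_apply]
  congr 1
  simp [Subtype.ext_iff, Prod.ext_iff]

end Pool.Agent.Helper74.SYM
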